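import Pool.Agent.Q28.HP.Main

/-!
# Equidistribution of the Galois orbits of almost all points of Hecke orbits of special points

Let `S` be a connected component of a Shimura variety `Sh_K(G, X)` of arbitrary type, `z₀ ∈ S` any
special point, `p` a prime which splits completely in a certain number field depending on `z₀`, and
`g_n ∈ G(𝔸_f^p)` (in the image of the simply connected cover of the derived group) such that the degrees
of the Hecke correspondences `T_(g_n)` tend to infinity on every simple factor. The points
`y ∈ T_(g_n) z₀` are indexed by `k ∈ K^p / (K^p ∩ g_n K^p g_n⁻¹)`. We prove that there are sets of bad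
indices of density tending to zero such that for every sequence `y_n ∈ T_(g_n) z₀` with indices
outside of the bad sets the orbits `Gal(ℚbar / E_S) y_n` are equidistributed in `S`.

In other words, the conclusion of the equidistribution conjecture holds for one hundred percent of
the points of the Hecke orbit of every special point of every Shimura variety, and in particular
every such Hecke orbit contains sequences with equidistributed Galois orbits.

The proof: the Galois orbit of `[h, (k g_n, 1)]` is invariant under the translation by an element
`a ∈ T(ℚ_p)` which is mixing. So the average of a test function over a Galois orbit is the average of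
its ergodic averages `(f + f ∘ a + ... + f ∘ a^N) / (N + 1)`, these are close to a constant in the
square mean, and the equidistribution of the whole Hecke orbit at the level
`K^p × (K_p ∩ a K_p a⁻¹ ∩ ... ∩ a^N K_p a^(-N))` shows that the variance of the Galois averages tends
to zero.

The known facts used are collected in the structures `Facts`, `GaloisFacts` and the predicate
`HeckeEquivariant`: finiteness of class numbers of tori, the reciprocity law for special points,
mixing (Howe and Moore), and the equidistribution of whole Hecke orbits (Clozel, Oh and Ullmo).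
-/

namespace Pool.Agent.Results.MP_9177b7_ag.AlmostAllHeckePoints

open Filter Topology MeasureTheory Pool.Agent.Q28.HP

/-- **Galois orbits of almost all points of the Hecke orbits of a special point.** `m` is the
normalised invariant measure on the component `S` of the special point `z₀ = [x₀, (u₀, v₀)]`, `Γ` is
the group of the automorphisms of `ℂ` over the field `E_S`. The Galois orbits of the points
`heckePoint ... (k n)` of `T_(g n) z₀` converge weakly to `m` as soon as the indices `k n` are outside
of the sets `bad n`, and the density of these sets tends to zero. In particular there are such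
sequences. -/
theorem result {D : Datum} {Kp : Subgroup D.B} (hK : IsLevel Kp Kp)
    [T2Space (Sh D Kp)] [LocallyCompactSpace (Sh D Kp)] [SecondCountableTopology (Sh D Kp)]
    {Γ : Type} [Group Γ] [MulAction Γ (Sh D Kp)] {Γ' : Subgroup Γ} {P : Γ → CM D}
    {g : ℕ → D.A} (hfin : ∀ n, Finite (HeckeIndex D (g n)))
    {μ : Γ → ∀ V : Subgroup D.B, Measure (Sh D V)} {m : Measure (Sh D Kp)}
    (hm : ∀ σ, μ σ Kp = m) (hF : ∀ σ, Facts Kp (μ σ) g (P σ))
    {x₀ : D.X} {u₀ : D.A} {v₀ : D.B} (hG : GaloisFacts Kp Γ' (point D Kp x₀ u₀ v₀) P)
    (hH : ∀ n, HeckeEquivariant Kp Γ (g n)) :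
    (∃ bad : ∀ n, Set (HeckeIndex D (g n)),
      Tendsto (fun n => ((bad n).ncard : ℝ) / Nat.card (HeckeIndex D (g n))) atTop (𝓝 0) ∧
      ∀ k : ∀ n, HeckeIndex D (g n), (∀ᶠ n in atTop, k n ∉ bad n) →
        ∀ f : Sh D Kp → ℝ, Continuous f → HasCompactSupport f →
        Tendsto (fun n => avg (MulAction.orbit Γ (heckePoint D Kp (g n) x₀ u₀ v₀ (k n))) f) atTop
          (𝓝 (∫ w, f w ∂m))) ∧
    ∃ k : ∀ n, HeckeIndex D (g n), ∀ f : Sh D Kp → ℝ, Continuous f → HasCompactSupport f →
      Tendsto (fun n => avg (MulAction.orbit Γ (heckePoint D Kp (g n) x₀ u₀ v₀ (k n))) f) atTop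
        (𝓝 (∫ w, f w ∂m)) := by
  classical
  have h1 := almost_all hK hF hG hH hfin hm
  refine ⟨h1, ?_⟩
  obtain ⟨bad, hb1, hb2⟩ := h1
  let k : ∀ n, HeckeIndex D (g n) := fun n =>
    if h : ∃ i, i ∉ bad n then h.choose else QuotientGroup.mk 1
  refine ⟨k, hb2 k ?_⟩
  filter_upwards [hb1.eventually_lt_const (zero_lt_one)] with n hn
  have h2 : ∃ i, i ∉ bad n := by
    by_contra hc
    push Not at hc
    have h3 : bad n = Set.univ := Set.eq_univ_of_forall hc
    have := hfin n
    have h4 : 0 < Nat.card (HeckeIndex D (g n)) := Nat.card_pos
    rw [h3, Set.ncard_univ, div_self (by exact_mod_cast h4.ne')] at hn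
    exact lt_irrefl _ hn
  have h3 : k n = h2.choose := dif_pos h2
  rw [h3]
  exact h2.choose_spec

end Pool.Agent.Results.MP_9177b7_ag.AlmostAllHeckePoints
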