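import Pool.Agent.Q28.HP.ToricMain

/-!
# Equidistribution of the Galois orbits of almost all points of toric packets

Let `S` be a connected component of a Shimura variety `Sh_K(G, X)`, `p` a prime number, and
`z_n = [h_n, (b_n, v_n)]` special points of `S` with tori `T_n`. The toric packet of `z_n` consists of
the points `[h_n, t (b_n, v_n)]` of `S`, `t ∈ T_n(𝔸_f)`. On Hilbert modular varieties and on quaternionic
Shimura varieties of any dimension these are class group orbits of CM points, and the whole packets
are equidistributed when the discriminants tend to infinity (Zhang, Venkatesh, Michel and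
Venkatesh). But if the dimension of `S` is at least two then the Galois orbits can be much smaller
than the packets, and their equidistribution is known only if the index is small.

We prove: if the prime `p` splits completely in the CM fields `K_n` and does not divide the
conductors, then the Galois orbits of one hundred percent of the points of the packets are
equidistributed in `S`, whatever the size of the Galois orbits is. More generally this holds for all
Shimura varieties and all sequences of packets which are equidistributed at all levels at `p`, if the
reciprocity maps contain a fixed mixing element `a` of `G(ℚ_p)`.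

The proof: the Galois orbits are invariant under a fixed mixing element `a` of `G(ℚ_p)`, so the average of a
test function over a Galois orbit is the average of its ergodic averages.
-/

namespace Pool.Agent.Results.MP_9177b7_ag.AlmostAllToricPackets

open Filter Topology MeasureTheory Pool.Agent.Q28.HP

/-- **Galois orbits of almost all points of toric packets.** `m` is the normalised invariant measure
on the component `S`, `Γ` is the group of the automorphisms of `ℂ` over the field `E_S`, `Γ' n` the
subgroup of a finite extension of bounded degree containing the reflex field of the torus `T_n`,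
`P n 1` the toric packet and `P n σ` its conjugates. Since the element `a` and the components of the
Shimura varieties of higher level take only finitely many values, the facts `ToricFacts` are used
along subsequences. -/
theorem result {D : Datum} {Kp : Subgroup D.B} (hK : IsLevel Kp Kp)
    [T2Space (Sh D Kp)] [LocallyCompactSpace (Sh D Kp)] [SecondCountableTopology (Sh D Kp)]
    {Γ : Type} [Group Γ] [MulAction Γ (Sh D Kp)] {Γ' : ℕ → Subgroup Γ} {B : ℕ}
    (hB : ∀ n, (Γ' n).index ≠ 0 ∧ (Γ' n).index ≤ B) {P : ℕ → Γ → Toric D}
    (hfin : ∀ n σ, ((P n σ).packet Kp).Finite)
    (hG : ∀ n, ToricGalois Kp (Γ' n) (P n)) {m : Measure (Sh D Kp)} [IsProbabilityMeasure m]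
    (hF : ∀ (τ : ℕ → Γ) (ns : ℕ → ℕ), Tendsto ns atTop atTop → ∃ (ms : ℕ → ℕ) (a : D.B)
      (μ : ∀ V : Subgroup D.B, Measure (Sh D V)), μ Kp = m ∧
      ToricFacts Kp μ a fun n => P (ns (ms n)) (τ (ns (ms n)))) :
    ∃ bad : ∀ n, Set (Sh D Kp), (∀ n, bad n ⊆ (P n 1).packet Kp) ∧
      Tendsto (fun n => ((bad n).ncard : ℝ) / ((P n 1).packet Kp).ncard) atTop (𝓝 0) ∧
      ∀ z : ℕ → Sh D Kp, (∀ᶠ n in atTop, z n ∈ (P n 1).packet Kp \ bad n) →
        ∀ f : Sh D Kp → ℝ, Continuous f → HasCompactSupport f →
        Tendsto (fun n => avg (MulAction.orbit Γ (z n)) f) atTop (𝓝 (∫ w, f w ∂m)) :=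
  toric_almost_all hK hB hfin hG hF

end Pool.Agent.Results.MP_9177b7_ag.AlmostAllToricPackets
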