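import Pool.Agent.Q28.PT.Lim

/-!
# MP_9177b7_ag: almost all tuples of conjugate special points on products

Let `S_1, …, S_n` be components of Shimura varieties over the number field `F` and
`x_i = (x_i1, …, x_in)` special points of the product `S_1 × ⋯ × S_n`. The Galois group acts on the
coordinates at the same time, and in general nothing is known about the equidistribution of the orbit
of `x_i`, even if the orbits of the coordinates are equidistributed with all twists. We show that in
this case the Galois orbits of one hundred percent of the tuples of conjugates of the coordinates are
equidistributed in the product.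

The proof is a second moment computation: the Galois group acts through an abelian group on a
subgroup of small index, and the correlations of the test functions along this group are computed by
the Parseval identity.
-/

namespace Pool.Agent.Results.MP_9177b7_ag.AlmostAllTuples

open Filter Topology MeasureTheory Pool.Agent.Q28.EQ Pool.Agent.Q28.PT

theorem result {G : Type} [Group G] {GF : Subgroup G} {n : ℕ} (S : Fin n → Component G GF)
    (x : ℕ → Point S) (U : ℕ → Subgroup G) (hT : Twisted S x U) :
    (∀ f : (∀ j, (S j).Y) → ℝ, Continuous f → HasCompactSupport f →
      Tendsto (fun i => avg (Conj S (x i)) fun z =>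
        |avg (orb GF ⊤ z) (fun y => f fun j => (S j).val (y j)) -
          ∫ y, f y ∂(Measure.pi fun j => (S j).m)|) atTop (𝓝 0)) ∧
    (∃ B : ℕ → Set (Point S), (∀ i, B i ⊆ Conj S (x i)) ∧
      Tendsto (fun i => ((B i).ncard : ℝ) / (Conj S (x i)).ncard) atTop (𝓝 1) ∧
      ∀ z : ℕ → Point S, (∀ᶠ i in atTop, z i ∈ B i) → Equidistributed S z) :=
  ⟨fun f hf hc => limit hT f hf hc, good_choice hT⟩

end Pool.Agent.Results.MP_9177b7_ag.AlmostAllTuples
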